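import Mathlib
import Pool.Agent.TH910.HudFifteen

/-!
# Hudson's question for functions that pretend to be a real Dirichlet character

A completely multiplicative function `ℕ → {1, -1}` is the same as a homomorphism `ℕ+ →* ℤˣ`.
Among those for which the sum of `1/p` over the primes `p` with `f p ≠ χ p` converges for some real
Dirichlet character `χ`, exactly 15 have no four consecutive values `+1`, and they are listed.
-/

namespace Pool.Agent.Results.MP_c8994f_nt.PretentiousFifteen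

/-- `f` has four consecutive values `+1`. -/
def HasFour (f : ℕ+ →* ℤˣ) : Prop :=
  ∃ n : ℕ+, f n = 1 ∧ f (n + 1) = 1 ∧ f (n + 2) = 1 ∧ f (n + 3) = 1

/-- the primes at which `f` differs from the real Dirichlet character `χ` modulo `m` -/
def Deviation (f : ℕ+ →* ℤˣ) {m : ℕ} (χ : DirichletCharacter ℤ m) : Set ℕ :=
  {p | ∃ hp : p.Prime, ((f ⟨p, hp.pos⟩ : ℤˣ) : ℤ) ≠ χ (p : ZMod m)}

/-- For some real Dirichlet character `χ` modulo some `m ≥ 1`, the sum of `1/p` over the primes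
`p` with `f p ≠ χ p` converges. -/
def Pretentious (f : ℕ+ →* ℤˣ) : Prop :=
  ∃ (m : ℕ) (χ : DirichletCharacter ℤ m), 0 < m ∧
    Summable (fun p : Deviation f χ => (1 : ℝ) / ((p : ℕ) : ℝ))

/-- The list: `f p = (p/ℓ)` (Legendre symbol) for all primes `p ≠ ℓ`, for some `ℓ` among
`3, 5, 7, 11, 13, 53`; or `f p = χ₄ p` for all odd primes `p`; or `f 2 = -1` and `f p = 1` for all
odd primes `p`. -/
def Listed (f : ℕ+ →* ℤˣ) : Prop :=
  (∃ ℓ : ℕ, ∃ _hℓ : Fact ℓ.Prime, ℓ ∈ ({3, 5, 7, 11, 13, 53} : Set ℕ) ∧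
    ∀ p : ℕ, ∀ hp : p.Prime, p ≠ ℓ → ((f ⟨p, hp.pos⟩ : ℤˣ) : ℤ) = legendreSym ℓ p) ∨
  (∀ p : ℕ, ∀ hp : p.Prime, p ≠ 2 → ((f ⟨p, hp.pos⟩ : ℤˣ) : ℤ) = ZMod.χ₄ p) ∨
  (f 2 = -1 ∧ ∀ p : ℕ, ∀ hp : p.Prime, p ≠ 2 → f ⟨p, hp.pos⟩ = 1)

open Pool.Agent.TH910.Hud

lemma units_val (u v : ℤˣ) : u = v ↔ (u : ℤ) = (v : ℤ) := Units.val_inj.symm

lemma no4_iff (f : ℕ+ →* ℤˣ) : No4 (toF f) ↔ ¬ HasFour f := by
  constructor
  · rintro h ⟨n, h0, h1, h2, h3⟩
    refine h n n.pos ⟨?_, ?_, ?_, ?_⟩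
    · rw [toF_pnat, h0]; rfl
    · have := toF_pnat f (n + 1)
      rw [h1] at this; simpa using this
    · have := toF_pnat f (n + 2)
      rw [h2] at this; simpa using this
    · have := toF_pnat f (n + 3)
      rw [h3] at this; simpa using this
  · intro h n hn ⟨h0, h1, h2, h3⟩
    refine h ⟨⟨n, hn⟩, ?_, ?_, ?_, ?_⟩
    · rw [toF_pos f n hn] at h0
      exact Units.val_inj.1 (by simpa using h0)
    · rw [toF_pos f (n + 1) (by omega)] at h1
      have e : (⟨n, hn⟩ + 1 : ℕ+) = ⟨n + 1, by omega⟩ := PNat.eq rfl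
      rw [e]; exact Units.val_inj.1 (by simpa using h1)
    · rw [toF_pos f (n + 2) (by omega)] at h2
      have e : (⟨n, hn⟩ + 2 : ℕ+) = ⟨n + 2, by omega⟩ := PNat.eq rfl
      rw [e]; exact Units.val_inj.1 (by simpa using h2)
    · rw [toF_pos f (n + 3) (by omega)] at h3
      have e : (⟨n, hn⟩ + 3 : ℕ+) = ⟨n + 3, by omega⟩ := PNat.eq rfl
      rw [e]; exact Units.val_inj.1 (by simpa using h3)

lemma dev_eq (f : ℕ+ →* ℤˣ) {m : ℕ} (χ : DirichletCharacter ℤ m) :
    Dev (toF f) (chF χ) = Deviation f χ := by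
  ext p
  constructor
  · rintro ⟨hp, h⟩
    exact ⟨hp, by rwa [toF_pos f p hp.pos] at h⟩
  · rintro ⟨hp, h⟩
    exact ⟨hp, by rwa [toF_pos f p hp.pos]⟩

lemma pret_iff (f : ℕ+ →* ℤˣ) : Pretentious f ↔ ∃ (m : ℕ) (χ : DirichletCharacter ℤ m), 0 < m ∧
    Summable (fun p : Dev (toF f) (chF χ) => (1 : ℝ) / ((p : ℕ) : ℝ)) := by
  unfold Pretentious
  constructor
  · rintro ⟨m, χ, hm, hs⟩
    exact ⟨m, χ, hm, by rw [dev_eq]; exact hs⟩
  · rintro ⟨m, χ, hm, hs⟩
    exact ⟨m, χ, hm, by rw [dev_eq] at hs; exact hs⟩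

lemma listed_iff (f : ℕ+ →* ℤˣ) :
    Pool.Agent.TH910.Hud.Listed (toF f) ↔ Listed f := by
  have e2 : toF f 2 = -1 ↔ f 2 = -1 := by
    have h := toF_pnat f 2
    have h' : toF f 2 = ((f 2 : ℤˣ) : ℤ) := by simpa using h
    rw [h']
    constructor
    · intro h1
      exact Units.val_inj.1 (by simpa using h1)
    · intro h1
      rw [h1]; rfl
  constructor
  · intro h
    have leg : ∀ (l : ℕ) (hl : Fact l.Prime), l ∈ ({3, 5, 7, 11, 13, 53} : Set ℕ) →
        (∀ q, q.Prime → q ≠ l → toF f q = legendreSym l q) → Listed f := by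
      intro l hl hmem hv
      refine Or.inl ⟨l, hl, hmem, fun p hp hne => ?_⟩
      rw [← toF_pos f p hp.pos]; exact hv p hp hne
    rcases h with h | h | h | h | h | h | h | h
    · exact leg 3 inferInstance (by simp) h
    · exact leg 5 inferInstance (by simp) h
    · exact leg 7 inferInstance (by simp) h
    · exact leg 11 inferInstance (by simp) h
    · exact leg 13 inferInstance (by simp) h
    · exact leg 53 inferInstance (by simp) h
    · refine Or.inr (Or.inl fun p hp hne => ?_)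
      rw [← toF_pos f p hp.pos]; exact h p hp hne
    · refine Or.inr (Or.inr ⟨e2.1 h.1, fun p hp hne => ?_⟩)
      have h1 := h.2 p hp hne
      rw [toF_pos f p hp.pos] at h1
      exact Units.val_inj.1 (by simpa using h1)
  · rintro (⟨l, hl, hmem, hv⟩ | h | h)
    · have hv' : ∀ q, q.Prime → q ≠ l → toF f q = legendreSym l q := by
        intro q hq hne
        rw [toF_pos f q hq.pos]; exact hv q hq hne
      simp only [Set.mem_insert_iff, Set.mem_singleton_iff] at hmem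
      rcases hmem with rfl | rfl | rfl | rfl | rfl | rfl
      · exact Or.inl hv'
      · exact Or.inr (Or.inl hv')
      · exact Or.inr (Or.inr (Or.inl hv'))
      · exact Or.inr (Or.inr (Or.inr (Or.inl hv')))
      · exact Or.inr (Or.inr (Or.inr (Or.inr (Or.inl hv'))))
      · exact Or.inr (Or.inr (Or.inr (Or.inr (Or.inr (Or.inl hv')))))
    · refine Or.inr (Or.inr (Or.inr (Or.inr (Or.inr (Or.inr (Or.inl fun q hq hne => ?_))))))
      rw [toF_pos f q hq.pos]; exact h q hq hne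
    · refine Or.inr (Or.inr (Or.inr (Or.inr (Or.inr (Or.inr (Or.inr ⟨e2.2 h.1,
        fun q hq hne => ?_⟩))))))
      rw [toF_pos f q hq.pos, h.2 q hq hne]; rfl

/-- The completely multiplicative functions `f : ℕ+ → {1, -1}` that pretend to be a real Dirichlet
character and have no four consecutive values `+1` are exactly the listed ones, and there are
exactly 15 of them. -/
theorem result :
    (∀ f : ℕ+ →* ℤˣ, (¬ HasFour f ∧ Pretentious f) ↔ Listed f) ∧
      {f : ℕ+ →* ℤˣ | ¬ HasFour f ∧ Pretentious f}.ncard = 15 := by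
  have key : ∀ f : ℕ+ →* ℤˣ, (¬ HasFour f ∧ Pretentious f) ↔
      Pool.Agent.TH910.Hud.Listed (toF f) := by
    intro f
    rw [classify (toF_cm f), ← no4_iff, pret_iff]
  refine ⟨fun f => (key f).trans (listed_iff f), ?_⟩
  have : {f : ℕ+ →* ℤˣ | ¬ HasFour f ∧ Pretentious f} =
      {f : ℕ+ →* ℤˣ | Pool.Agent.TH910.Hud.Listed (toF f)} := by
    ext f
    exact key f
  rw [this]
  exact ncard_listed

end Pool.Agent.Results.MP_c8994f_nt.PretentiousFifteen
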